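import Pool.Agent.H849.PX.Defs

/-!
# Classes with a polarised quotient: definitions

Let `W` be a projective log smooth scheme over `O`, for example a product `X_1 × ⋯ × X_s × G`, and
`f : Z → W` a Lefschetz map, `Z` of relative dimension `n`, with the class `f_* 1 = Θ`, for example a
complete intersection of ample divisors `A_1, …, A_c`, not necessarily of the same class, transversal
to the strata; then `Θ = A_1 ⋯ A_c`. The image of the pull-back `f^*` in the `E_1` term of `Z` is the
quotient `K` of the `E_1` term of `W` by the kernel of `Θ`. By the mixed hard Lefschetz theorem (or by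
the theorem of Bloch and Gieseker, if `Z` is the zero locus of a section of an ample vector bundle) `K`
satisfies the hard Lefschetz theorem with respect to `L`, centered at `n`.
-/

set_option autoImplicit false

namespace Pool.Agent.H849.PM

open Module Pool.Agent.H849.SF Pool.Agent.H849.PW Pool.Agent.H849.PX

universe u v

/-- A vector space with the operators `N`, `d`, `col` (the number of the column), `L`, `deg` (the total
degree), and the dual operators `N'` of `N` and `Λ` of `L`. -/
structure Space (Ω : Type u) [Field Ω] where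
  E : Type v
  [addCommGroup : AddCommGroup E]
  [module : Module Ω E]
  N : Module.End Ω E
  d : Module.End Ω E
  col : Module.End Ω E
  L : Module.End Ω E
  deg : Module.End Ω E
  N' : Module.End Ω E
  Λ : Module.End Ω E

attribute [instance] Space.addCommGroup Space.module

variable {Ω : Type u} [Field Ω] [CharZero Ω]

/-- `K` is the quotient of the `E_1` term of `W` by the kernel of `Θ`, with the induced operators, and
with the dual operators `N'` and `Λ` (by the mixed hard Lefschetz theorem they exist and are unique);
`deg` is the multiplication by `i - n` in the total degree `i`. -/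
structure IsQuotient (W : LogScheme.{u, v} Ω) (Θ : Module.End Ω W.T.E) (n : ℕ)
    (K : Space.{u, v} Ω) (π : W.T.E →ₗ[Ω] K.E) : Prop where
  surjective : Function.Surjective π
  ker : ∀ x, π x = 0 ↔ Θ x = 0
  ops : Intertwines π W.T.N W.T.d W.T.col K.N K.d K.col
  lef : ∀ x, π (W.P.L x) = K.L (π x)
  deg : ∀ r w x, x ∈ W.T.gr r w → K.deg (π x) = ((r + w - n : ℤ) : Ω) • π x
  sl2_N : IsSl2 K.col K.N K.N'
  sl2_L : IsSl2 K.deg K.L K.Λ
  N_Λ : Commute K.N K.Λ
  N'_L : Commute K.N' K.L
  N'_Λ : Commute K.N' K.Λ

/-- The class `Θ` on `W` is polarised: on the quotient of the `E_1` term of `W` by the kernel of `Θ`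
there is a positive hermitian form such that `e δ` is the adjoint of `d_1`, where `δ = [N', [Λ, d_1]]`.
It exists (Guillén and Navarro Aznar, M. Saito) if the mixed Hodge-Riemann relations are true for `Θ` and
`L`; for a product `Θ = A_1 ⋯ A_c` of classes in an open cone of classes which polarise the `E_1` term
they are known (Cattani; Gromov, Timorin, Dinh-Nguyen). -/
def IsPolarizedClass (W : LogScheme.{u, v} Ω) (Θ : Module.End Ω W.T.E) (n : ℕ) (P : Set Ω)
    (e : Ω) : Prop :=
  ∃ (K : Space.{u, v} Ω) (π : W.T.E →ₗ[Ω] K.E) (h : K.E →ₗ[Ω] (K.E →+ Ω)),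
    IsQuotient W Θ n K π ∧ IsHodgeForm P e K.d (cod K.N' K.Λ K.d) h

/-- There is a Lefschetz map `f : Z → W` with the class `f_* 1 = Θ`, `Z` of relative dimension `n` and
with the `E_1` term `T`. -/
def HasMapOfClass (W : LogScheme.{u, v} Ω) (Θ : Module.End Ω W.T.E) (n : ℕ)
    (T : WeightTerm.{u, v} Ω) : Prop :=
  ∃ (pull : W.T.E →ₗ[Ω] T.E) (push : T.E →ₗ[Ω] W.T.E),
    IsLefschetz n W.T.N W.T.d W.T.col Θ T pull push

/-- All the cohomology groups of the geometric generic fibre of `Z` are mw pure, for all the log smooth
`Z` with a Lefschetz map `Z → W` of a polarised class. -/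
def PureOverClasses (W : LogScheme.{u, v} Ω) (P : Set Ω) (e : Ω) : Prop :=
  ∀ (n q : ℕ) (Z : LogModel.{u, v} Ω n q) (Θ : Module.End Ω W.T.E),
    IsPolarizedClass W Θ n P e → HasMapOfClass W Θ n Z.toWeightTerm → ∀ i : ℕ, Z.PureIn i

end Pool.Agent.H849.PM
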