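import Pool.Agent.H849.PM.Defs

/-!
# Lefschetz maps of polarised classes, for one prime
-/

set_option autoImplicit false

namespace Pool.Agent.H849.PM

open Module Pool.Agent.H849.PW Pool.Agent.H849.PX

universe u v

/-- There is a Lefschetz map `Z → W` of a polarised class, `W` projective log smooth: for example, `Z` is
a complete intersection of different ample divisors in a product of curves, surfaces, and a scheme of
good reduction. -/
def IsOfPolarizedClass {Ω : Type u} [Field Ω] [CharZero Ω] (n : ℕ) (T : WeightTerm.{u, v} Ω) :
    Prop :=
  ∃ (W : LogScheme.{u, v} Ω) (Θ : Module.End Ω W.T.E) (P : Set Ω) (e : Ω),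
    IsPositiveCone P ∧ e * e = 1 ∧ IsPolarizedClass W Θ n P e ∧ HasMapOfClass W Θ n T

end Pool.Agent.H849.PM
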