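import Pool.Agent.H849.PM.Defs
import Pool.Agent.H849.PX.Main

/-!
# Lefschetz maps of polarised classes
-/

set_option autoImplicit false
set_option linter.unusedSectionVars false

open Module

namespace Pool.Agent.H849.PM

open Pool.Agent.Y143 Pool.Agent.H849.SF Pool.Agent.H849.NC Pool.Agent.H849.PW Pool.Agent.H849.PX

universe u v

variable {Ω : Type u} [Field Ω] [CharZero Ω]

section Harmonic

variable {E : Type v} [AddCommGroup E] [Module Ω E] [FiniteDimensional Ω E] {P : Set Ω} {e : Ω}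
  {c N N' h₂ L Λ d : Module.End Ω E} {h : E →ₗ[Ω] (E →+ Ω)} (hP : IsPositiveCone P)
  (he : e * e = 1) (W : IsWeightComplex c N N' h₂ L Λ d)
  (H : IsHodgeForm P e d (cod N' Λ d) h)
include hP he W H

lemma e_ne : e ≠ 0 := fun h0 => by rw [h0, mul_zero] at he; exact zero_ne_one he

lemma harmonic {x : E} (hx : lap N' Λ d x = 0) : cod N' Λ d x = 0 ∧ d x = 0 := by
  have h2 := form_lap hP he H x x
  rw [show (d * cod N' Λ d + cod N' Λ d * d) x = 0 from hx, map_zero, AddMonoidHom.zero_apply] at h2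
  have h3 := (mul_eq_zero.1 h2.symm).resolve_left (e_ne hP he W H)
  rcases sum_pos hP he H x with h4 | h4
  · exact h4
  · rw [h3] at h4
    exact absurd h4 hP.zero

lemma lap_lap {x : E} (hx : lap N' Λ d (lap N' Λ d x) = 0) : lap N' Λ d x = 0 := by
  apply form_zero hP he H
  have h1 := form_lap' hP he H (lap N' Λ d x) x
  have h2 := form_lap hP he H (lap N' Λ d x) x
  have h3 : h (lap N' Λ d x) (lap N' Λ d x) = h (lap N' Λ d (lap N' Λ d x)) x := by
    exact h1.trans h2.symm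
  rw [h3, hx, map_zero, AddMonoidHom.zero_apply]

/-- `d z = 0` if `δ d z = 0`. -/
lemma of_cod_d {z : E} (hz : cod N' Λ d (d z) = 0) : d z = 0 := by
  apply form_zero hP he H
  rw [H.adj z (d z), hz, map_zero, mul_zero]

/-- `δ z = 0` if `d δ z = 0`. -/
lemma of_d_cod {z : E} (hz : d (cod N' Λ d z) = 0) : cod N' Λ d z = 0 := by
  apply form_zero hP he H
  rw [H.adj' z (cod N' Λ d z), hz, map_zero, mul_zero]

/-- Every vector is the sum of a harmonic vector and of a vector in the image of the Laplace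
operator. -/
lemma exists_harmonic (x : E) : ∃ y z, lap N' Λ d y = 0 ∧ x = y + lap N' Λ d z := by
  have hdis : Disjoint (LinearMap.ker (lap N' Λ d)) (LinearMap.range (lap N' Λ d)) := by
    rw [Submodule.disjoint_def]
    rintro _ h1 ⟨z, rfl⟩
    exact lap_lap hP he W H (LinearMap.mem_ker.1 h1)
  have hc : IsCompl (LinearMap.ker (lap N' Λ d)) (LinearMap.range (lap N' Λ d)) := by
    refine ⟨hdis, codisjoint_iff.2 ?_⟩
    apply Submodule.eq_top_of_disjoint _ _ _ hdis
    rw [add_comm]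
    exact le_of_eq (LinearMap.finrank_range_add_finrank_ker _).symm
  have hx : x ∈ LinearMap.ker (lap N' Λ d) ⊔ LinearMap.range (lap N' Λ d) := by
    rw [hc.codisjoint.eq_top]
    trivial
  obtain ⟨y, hy, _, ⟨z, rfl⟩, hyz⟩ := Submodule.mem_sup.1 hx
  exact ⟨y, z, LinearMap.mem_ker.1 hy, hyz.symm⟩

/-- `N ^ k` is injective on the cohomology in the column `-k`. -/
theorem inj_harmonic (k : ℕ) {x x' : E} (hx : c x = (-(k : Ω)) • x) (hdx : d x = 0)
    (hN : (N ^ k) x = d x') : ∃ u, x = d u := by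
  obtain ⟨y, z, hy, rfl⟩ := exists_harmonic hP he W H x
  obtain ⟨hy1, hy2⟩ := harmonic hP he W H hy
  -- the harmonic part is in the column `-k`
  have hcD : ∀ v, c (lap N' Λ d v) = lap N' Λ d (c v) := fun v => LinearMap.congr_fun W.h₁_lap.eq v
  have hND : ∀ v, N (lap N' Λ d v) = lap N' Λ d (N v) := fun v => LinearMap.congr_fun W.N_lap.eq v
  have hcy : c y = (-(k : Ω)) • y := by
    have h1 : c y - (-(k : Ω)) • y = -(lap N' Λ d (c z - (-(k : Ω)) • z)) := by
      rw [map_add, hcD, smul_add] at hx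
      rw [map_sub, map_smul, eq_neg_iff_add_eq_zero, sub_add_sub_comm, hx, sub_self]
    have h2 : lap N' Λ d (c y - (-(k : Ω)) • y) = 0 := by
      rw [map_sub, map_smul, ← hcD, hy, map_zero, smul_zero, sub_zero]
    have h3 : lap N' Λ d (lap N' Λ d (c z - (-(k : Ω)) • z)) = 0 := by
      rw [h1, map_neg, neg_eq_zero] at h2
      exact h2
    rw [lap_lap hP he W H h3, neg_zero] at h1
    exact sub_eq_zero.1 h1
  -- the other part is exact
  have h4 : d (cod N' Λ d (d z)) = 0 := by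
    have h5 : d (lap N' Λ d z) = d (cod N' Λ d (d z)) := by
      show d ((d * cod N' Λ d + cod N' Λ d * d) z) = _
      rw [LinearMap.add_apply, Module.End.mul_apply, Module.End.mul_apply, map_add,
        show d (d (cod N' Λ d z)) = 0 from LinearMap.congr_fun W.dd _, zero_add]
    rw [map_add, hy2, zero_add, h5] at hdx
    exact hdx
  have h6 : d z = 0 := of_cod_d hP he W H (of_d_cod hP he W H h4)
  have h7 : lap N' Λ d z = d (cod N' Λ d z) := by
    show (d * cod N' Λ d + cod N' Λ d * d) z = _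
    rw [LinearMap.add_apply, Module.End.mul_apply, Module.End.mul_apply, h6, map_zero, add_zero]
  have hNd : ∀ (m : ℕ) v, (N ^ m) (d v) = d ((N ^ m) v) := by
    intro m v
    have h8 : Commute (N ^ m) d := (show Commute N d from W.Nd).pow_left m
    exact LinearMap.congr_fun h8.eq v
  have hNlap : ∀ (m : ℕ) v, (N ^ m) (lap N' Λ d v) = lap N' Λ d ((N ^ m) v) := by
    intro m v
    exact LinearMap.congr_fun (W.N_lap.pow_left m).eq v
  -- the harmonic part vanishes
  have h9 : (N ^ k) y = d (x' - (N ^ k) (cod N' Λ d z)) := by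
    rw [map_sub, ← hNd, ← h7, ← hN, map_add, add_sub_cancel_right]
  have h10 : lap N' Λ d ((N ^ k) y) = 0 := by rw [← hNlap, hy, map_zero]
  have h11 : (N ^ k) y = 0 := by
    have h12 := (harmonic hP he W H h10).1
    rw [h9] at h12 ⊢
    exact of_cod_d hP he W H h12
  have h13 : y = 0 := W.t₁.inj k hcy h11
  exact ⟨cod N' Λ d z, by rw [h13, zero_add, h7]⟩

end Harmonic

section Quotient

variable {W : LogScheme.{u, v} Ω} {Θ : Module.End Ω W.T.E} {n : ℕ} {K : Space.{u, v} Ω}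
  {π : W.T.E →ₗ[Ω] K.E} (Q : IsQuotient W Θ n K π)
include Q

lemma ext_quot {f g : Module.End Ω K.E} (h : ∀ x, f (π x) = g (π x)) : f = g := by
  ext y
  obtain ⟨x, rfl⟩ := Q.surjective y
  exact h x

/-- The quotient is a weight complex. -/
theorem complex_quot : IsWeightComplex K.col K.N K.N' K.deg K.L K.Λ K.d where
  t₁ := ⟨Q.sl2_N.1, Q.sl2_N.2.1, Q.sl2_N.2.2⟩
  t₂ := ⟨Q.sl2_L.1, Q.sl2_L.2.1, Q.sl2_L.2.2⟩
  NL := ext_quot Q fun x => by
    rw [Module.End.mul_apply, Module.End.mul_apply, ← Q.lef, ← Q.ops.N, ← Q.ops.N, ← Q.lef]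
    congr 1
    exact LinearMap.congr_fun W.dual.N_L.eq x
  NL' := Q.N_Λ.eq
  N'L := Q.N'_L.eq
  N'L' := Q.N'_Λ.eq
  dd := ext_quot Q fun x => by
    rw [Module.End.mul_apply, ← Q.ops.d, ← Q.ops.d, W.isTerm.d_d, map_zero]
    rfl
  Nd := ext_quot Q fun x => by
    rw [Module.End.mul_apply, Module.End.mul_apply, ← Q.ops.d, ← Q.ops.N, ← Q.ops.N, ← Q.ops.d,
      W.isTerm.N_d]
  Ld := ext_quot Q fun x => by
    rw [Module.End.mul_apply, Module.End.mul_apply, ← Q.ops.d, ← Q.lef, ← Q.lef, ← Q.ops.d]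
    congr 1
    exact LinearMap.congr_fun W.dual.L_d.eq x
  h₁d := ext_quot Q fun x => by
    have h1 : W.T.col * W.T.d - W.T.d * W.T.col = W.T.d :=
      (weight_polarization W.isTerm W.graded W.dual).h₁d
    have h2 := congrArg π (LinearMap.congr_fun h1 x)
    rw [LinearMap.sub_apply, Module.End.mul_apply, Module.End.mul_apply, map_sub, Q.ops.col,
      Q.ops.d, Q.ops.d, Q.ops.col] at h2
    rw [LinearMap.sub_apply, Module.End.mul_apply, Module.End.mul_apply]
    exact h2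
  h₂d := ext_quot Q fun x => by
    rw [LinearMap.sub_apply, Module.End.mul_apply, Module.End.mul_apply]
    refine WeightTerm.gr_induction W.isTerm
      (C := fun x => K.deg (K.d (π x)) - K.d (K.deg (π x)) = K.d (π x)) (by simp) ?_ ?_ x
    · intro y z hy hz
      rw [map_add, map_add, map_add, map_add, map_add, add_sub_add_comm, hy, hz]
    · intro p x hx
      have h1 := Q.deg _ _ _ (W.isTerm.d_gr _ _ _ hx)
      rw [← Q.ops.d, h1, Q.deg _ _ _ hx, map_smul, ← Q.ops.d, ← sub_smul]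
      push_cast
      rw [show (p.1 : Ω) + 1 + p.2 - n - (p.1 + p.2 - n) = 1 by ring, one_smul]

variable {P : Set Ω} {e : Ω} (hP : IsPositiveCone P) (he : e * e = 1)
  {h : K.E →ₗ[Ω] (K.E →+ Ω)} (H : IsHodgeForm P e K.d (cod K.N' K.Λ K.d) h)

lemma eq_quot {x y : W.T.E} : π x = π y ↔ Θ x = Θ y := by
  rw [← sub_eq_zero, ← map_sub, Q.ker, map_sub, sub_eq_zero]

include hP he H in
/-- `N ^ k` is injective on the cohomology of the quotient in the column `-k`. -/
theorem inj_class (k : ℕ) {x y : W.T.E} (hx : W.T.col x = (-(k : Ω)) • x) (hdx : Θ (W.T.d x) = 0)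
    (hy : Θ ((W.T.N ^ k) x) = Θ (W.T.d y)) : ∃ z, Θ x = Θ (W.T.d z) := by
  have := W.isTerm.finite
  have : FiniteDimensional Ω K.E := Module.Finite.of_surjective π Q.surjective
  have hpow : ∀ (m : ℕ) v, π ((W.T.N ^ m) v) = (K.N ^ m) (π v) := by
    intro m
    induction m with
    | zero => intro v; rfl
    | succ m ih =>
      intro v
      rw [pow_succ, Module.End.mul_apply, ih, Q.ops.N, pow_succ]
      rfl
  obtain ⟨u, hu⟩ := inj_harmonic hP he (complex_quot Q) H k (x := π x) (x' := π y)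
    (by rw [← Q.ops.col, hx, map_smul])
    (by rw [← Q.ops.d, Q.ker]; exact hdx)
    (by rw [← hpow, ← Q.ops.d]; exact (eq_quot Q).2 hy)
  obtain ⟨z, rfl⟩ := Q.surjective u
  refine ⟨z, (eq_quot Q).1 ?_⟩
  rw [hu, Q.ops.d]

include hP he H in
/-- **Lefschetz maps of polarised classes.** -/
theorem injAt {m q : ℕ} {T : WeightTerm.{u, v} Ω} (hT : T.IsTerm m q)
    {pull : W.T.E →ₗ[Ω] T.E} {push : T.E →ₗ[Ω] W.T.E}
    (hL : IsLefschetz m W.T.N W.T.d W.T.col Θ T pull push) (k : ℕ) (w : ℤ) :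
    WeightTerm.InjAt T k w := by
  have kd := WeightTerm.diag_col W.isTerm
  intro z hz hNz
  have hcz : T.col z = ((-(k : ℤ) : ℤ) : Ω) • z := hT.col_gr _ _ _ hz.1
  obtain ⟨x₀, y, hy, hzxy⟩ := hL.dec z
  -- the weights
  have h1 : T.col (pull x₀) - ((-(k : ℤ) : ℤ) : Ω) • pull x₀ =
      -(T.col y - ((-(k : ℤ) : ℤ) : Ω) • y) := by
    rw [hzxy, map_add, smul_add] at hcz
    rw [eq_neg_iff_add_eq_zero, sub_add_sub_comm, hcz, sub_self]
  have h2 : T.col (pull x₀) = ((-(k : ℤ) : ℤ) : Ω) • pull x₀ := by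
    rw [← sub_eq_zero]
    have h3 : T.col (pull x₀) - ((-(k : ℤ) : ℤ) : Ω) • pull x₀ =
        pull (W.T.col x₀ - ((-(k : ℤ) : ℤ) : Ω) • x₀) := by
      rw [map_sub, map_smul, hL.pull_ops.col]
    rw [h3]
    apply hL.dis
    rw [← h3, h1, map_neg, map_sub, map_smul, hL.push_ops.col, hy, map_zero, smul_zero, sub_zero,
      neg_zero]
  have h4 : T.col y = ((-(k : ℤ) : ℤ) : Ω) • y := by
    rw [h2, sub_self] at h1
    exact sub_eq_zero.1 (neg_eq_zero.1 h1.symm)
  obtain ⟨x, hx, hxx⟩ := exists_weight kd pull hL.pull_ops.col (-(k : ℤ)) h2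
  rw [← hxx] at hzxy
  obtain ⟨z', -, hz'⟩ := hNz
  obtain ⟨x', h5⟩ := hL.d_dec hT z'
  rw [h5, hzxy, map_add, ← hL.pull_pow] at hz'
  have h6 : (T.N ^ k) y = 0 := by
    have h7 : (T.N ^ k) y = pull (W.T.d x' - (W.T.N ^ k) x) := by
      rw [map_sub, hz', add_sub_cancel_left]
    rw [h7]
    apply hL.dis
    rw [← h7, hL.push_pow, hy, map_zero]
  have h8 : y = 0 := WeightTerm.col_inj hT k h4 h6
  rw [h6, add_zero] at hz'
  rw [h8, add_zero] at hzxy
  have h9 : pull (W.T.d x) = 0 := by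
    rw [hL.pull_ops.d, ← hzxy]
    exact LinearMap.mem_ker.1 hz.2
  obtain ⟨u, hu⟩ := inj_class Q hP he H k (x := x) (y := x') (by rw [hx]; push_cast; rfl)
    (by rw [← hL.pp, h9, map_zero]) (by rw [← hL.pp, ← hL.pp, hz'])
  exact WeightTerm.bd_of_range hT hz.1 (y := pull u) (by
    rw [hzxy, hL.eq_of hu, hL.pull_ops.d])

end Quotient

/-- **The theorem.** -/
theorem pureOverClasses {P : Set Ω} {e : Ω} (hP : IsPositiveCone P) (he : e * e = 1)
    (W : LogScheme.{u, v} Ω) : PureOverClasses W P e := by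
  rintro n q Z Θ ⟨K, π, h, Q, H⟩ ⟨pull, push, hL⟩
  exact Z.allPure_of fun k w _ => injAt Q hP he H Z.isTerm hL k w

end Pool.Agent.H849.PM
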