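import Pool.Agent.H849.PM.Defs
import Pool.Agent.H849.PAD.WeilDefs

/-!
# Sections of different classes: definitions
-/

set_option autoImplicit false

namespace Pool.Agent.H849.PM

open Module Pool.Agent.H849.PW Pool.Agent.H849.PX

universe u v

/-- A Lefschetz map `f : Z → W` of a polarised class `f_* 1 = Θ` to a projective log smooth scheme `W`,
for example a complete intersection `Z` of different ample divisors `A_1, …, A_c` (`Θ = A_1 ⋯ A_c`) in a
product of curves, transversal to the strata, and a degree; the residue field has `q` elements. -/
structure Section (Ω : Type u) [Field Ω] [CharZero Ω] (P : Set Ω) (e : Ω) (q : ℕ) where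
  W : LogScheme.{u, v} Ω
  Θ : Module.End Ω W.T.E
  n : ℕ
  Z : LogModel.{u, v} Ω n q
  polarized : IsPolarizedClass W Θ n P e
  map : HasMapOfClass W Θ n Z.toWeightTerm
  degree : ℕ

namespace Section

variable {Ω : Type u} [Field Ω] [CharZero Ω] {P : Set Ω} {e : Ω} {q : ℕ}
  (S : Section.{u, v} Ω P e q)

/-- The cohomology group of the geometric generic fibre of `Z`, in the given degree. -/
abbrev H : Type v := S.Z.generic.V S.degree

/-- The Frobenius on the cohomology group. -/
def frob : Module.End Ω S.H := S.Z.generic.frob S.degree

/-- The monodromy operator on the cohomology group. -/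
def N : Module.End Ω S.H := S.Z.generic.mon S.degree

end Section

end Pool.Agent.H849.PM
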